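import Mathlib
import Pool.Agent.H20.LSS3

set_option autoImplicit false

namespace Pool.Agent.Results.MP_c79496_ag.Prime
open MvPolynomial

/-- the edges are nonempty and no edge is contained in another edge -/
def IsClutter {n : ℕ} (E : Finset (Finset (Fin n))) : Prop :=
  (∀ A ∈ E, A.Nonempty) ∧ ∀ A ∈ E, ∀ B ∈ E, A ⊆ B → A = B

/-- `f_e^{(d)} = ∑_l ∏_{i ∈ e} y_{i,l}` -/
noncomputable def gen (K : Type*) [Field K] {n : ℕ} (d : ℕ) (e : Finset (Fin n)) :
    MvPolynomial (Fin n × Fin d) K :=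
  ∑ l : Fin d, ∏ i ∈ e, X (i, l)

/-- the LSS ideal `L_H(d)` -/
noncomputable def LSS (K : Type*) [Field K] {n : ℕ} (d : ℕ) (E : Finset (Finset (Fin n))) :
    Ideal (MvPolynomial (Fin n × Fin d) K) :=
  Ideal.span (gen K d '' (E : Set (Finset (Fin n))))

/-- `M` is a positive matching of the hypergraph with edge set `E` -/
def IsPosMatching {n : ℕ} (E M : Finset (Finset (Fin n))) : Prop :=
  M ⊆ E ∧ (∀ A ∈ M, ∀ B ∈ M, A ≠ B → Disjoint A B) ∧
    ∃ w : Fin n → ℝ, (∀ A ∈ M, 0 < ∑ i ∈ A, w i) ∧ ∀ A ∈ E \ M, ∑ i ∈ A, w i < 0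

/-- `P 0, …, P (p-1)` is a positive matching decomposition of `E` -/
def IsPMD {n : ℕ} (E : Finset (Finset (Fin n))) (p : ℕ) (P : ℕ → Finset (Finset (Fin n))) : Prop :=
  E = (Finset.range p).biUnion P ∧ ∀ i < p, IsPosMatching (E \ (Finset.range i).biUnion P) (P i)

/-- the least number of parts of a positive matching decomposition -/
noncomputable def pmd {n : ℕ} (E : Finset (Finset (Fin n))) : ℕ := sInf {p | ∃ P, IsPMD E p P}

open Pool.Agent.H20.LSS

lemma exists_pmd {n : ℕ} {E : Finset (Finset (Fin n))} (hE : IsClutter E) : ∃ p P, IsPMD E p P := by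
  let P : ℕ → Finset (Finset (Fin n)) := fun i =>
    if h : i < E.card then {(E.equivFin.symm ⟨i, h⟩ : Finset (Fin n))} else ∅
  refine ⟨E.card, P, ?_, fun i hi => ?_⟩
  · ext A
    simp only [Finset.mem_biUnion, Finset.mem_range]
    constructor
    · intro hA
      exact ⟨E.equivFin ⟨A, hA⟩, (E.equivFin ⟨A, hA⟩).2, by simp [P]⟩
    · rintro ⟨i, hi, hA⟩
      simp only [P, dif_pos hi, Finset.mem_singleton] at hA
      rw [hA]; exact (E.equivFin.symm ⟨i, hi⟩).2
  · have hP : P i = {(E.equivFin.symm ⟨i, hi⟩ : Finset (Fin n))} := by simp only [P, dif_pos hi]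
    have hA := (E.equivFin.symm ⟨i, hi⟩).2
    rw [hP]
    refine ⟨?_, by simp, fun k => if k ∈ (E.equivFin.symm ⟨i, hi⟩ : Finset (Fin n)) then 1 else -n, ?_, ?_⟩
    · rw [Finset.singleton_subset_iff, Finset.mem_sdiff]
      refine ⟨hA, fun h => ?_⟩
      obtain ⟨j, hj, h⟩ := Finset.mem_biUnion.1 h
      have hj' := Finset.mem_range.1 hj
      simp only [P, dif_pos (hj'.trans hi), Finset.mem_singleton] at h
      have := E.equivFin.symm.injective (Subtype.ext h)
      simp at this; omega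
    · intro A h
      rw [Finset.mem_singleton.1 h]
      exact Finset.sum_pos (fun k hk => by simp [hk]) (hE.1 _ hA)
    · intro B hB
      have hBE : B ∈ E := (Finset.mem_sdiff.1 (Finset.mem_sdiff.1 hB).1).1
      have hne := (Finset.mem_sdiff.1 hB).2
      rw [Finset.mem_singleton] at hne
      obtain ⟨k, hk, hk'⟩ := Finset.not_subset.1 fun h => hne (hE.2 B hBE _ hA h)
      rw [← Finset.add_sum_erase _ _ hk, if_neg hk']
      have h1 : ∑ x ∈ B.erase k, (if x ∈ (E.equivFin.symm ⟨i, hi⟩ : Finset (Fin n)) then (1 : ℝ) else -n)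
          ≤ ∑ _x ∈ B.erase k, (1 : ℝ) := Finset.sum_le_sum fun x _ => by
        split_ifs
        · exact le_rfl
        · have : (0 : ℝ) ≤ n := Nat.cast_nonneg n
          linarith
      have h2 : (B.erase k).card < n := by
        have := Finset.card_erase_lt_of_mem hk
        have := Finset.card_le_univ B
        simp only [Fintype.card_fin] at this; omega
      have h3 : ((B.erase k).card : ℝ) < n := by exact_mod_cast h2
      simp only [Finset.sum_const, nsmul_eq_mul, mul_one] at h1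
      linarith

lemma weights {n : ℕ} {E M : Finset (Finset (Fin n))} (hE : ∀ A ∈ E, A.Nonempty) (h : IsPosMatching E M) :
    ∃ (N : ℕ) (u : Fin n → ℕ) (g : Finset (Fin n) → ℕ),
      (∀ A ∈ E, g A + ∑ i ∈ A, u i = N * A.card) ∧ ∀ A ∈ E, g A = 0 ↔ A ∈ M := by
  obtain ⟨hME, hdis, w, hw1, hw2⟩ := h
  let k : ℕ := M.sup (fun A => ⌈(A.card : ℝ) / ∑ i ∈ A, w i⌉₊) + 1
  have hk0 : (0 : ℝ) < k := by positivity
  have hk : ∀ A ∈ M, (A.card : ℝ) ≤ k * ∑ i ∈ A, w i := by
    intro A hA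
    rw [← div_le_iff₀ (hw1 A hA)]
    refine (Nat.le_ceil _).trans ?_
    have := Finset.le_sup (f := fun A : Finset (Fin n) => ⌈(A.card : ℝ) / ∑ i ∈ A, w i⌉₊) hA
    exact_mod_cast this.trans (Nat.le_succ _)
  let z : Fin n → ℤ := fun i => ⌊k * w i⌋
  have hz1 : ∀ A ∈ M, 0 ≤ ∑ i ∈ A, z i := by
    intro A hA
    have h1 : ∑ i ∈ A, (k * w i - 1) ≤ ∑ i ∈ A, (z i : ℝ) :=
      Finset.sum_le_sum fun i _ => (Int.sub_one_lt_floor _).le
    rw [Finset.sum_sub_distrib, ← Finset.mul_sum] at h1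
    simp only [Finset.sum_const, nsmul_eq_mul, mul_one] at h1
    have h2 : (0 : ℝ) ≤ ∑ i ∈ A, (z i : ℝ) := by linarith [hk A hA]
    exact_mod_cast h2
  have hz2 : ∀ A ∈ E \ M, ∑ i ∈ A, z i < 0 := by
    intro A hA
    have h1 : ∑ i ∈ A, (z i : ℝ) ≤ ∑ i ∈ A, (k * w i) := Finset.sum_le_sum fun i _ => Int.floor_le _
    rw [← Finset.mul_sum] at h1
    have h2 : ∑ i ∈ A, (z i : ℝ) < 0 := h1.trans_lt (mul_neg_of_pos_of_neg hk0 (hw2 A hA))
    exact_mod_cast h2
  have hρ : ∀ A : Finset (Fin n), ∃ o : Option (Fin n), A ∈ M → ∃ i ∈ A, o = some i := by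
    intro A
    by_cases h : A ∈ M
    · obtain ⟨i, hi⟩ := hE A (hME h)
      exact ⟨some i, fun _ => ⟨i, hi, rfl⟩⟩
    · exact ⟨none, fun h' => absurd h' h⟩
  choose ρ hρ using hρ
  let e : Fin n → ℤ := fun i => z i - ∑ B ∈ M, if ρ B = some i then ∑ j ∈ B, z j else 0
  have he1 : ∀ A ∈ M, ∑ i ∈ A, e i = 0 := by
    intro A hA
    obtain ⟨i0, hi0, h0⟩ := hρ A hA
    simp only [e, Finset.sum_sub_distrib]
    rw [Finset.sum_comm, Finset.sum_eq_single A]
    · simp [h0, hi0]
    · intro B hB hBA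
      refine Finset.sum_eq_zero fun i hi => if_neg fun h => ?_
      obtain ⟨j0, hj0, hj⟩ := hρ B hB
      rw [hj] at h
      obtain rfl := Option.some.inj h
      exact Finset.disjoint_left.1 (hdis B hB A hA hBA) hj0 hi
    · exact fun h => absurd hA h
  have he2 : ∀ A ∈ E \ M, ∑ i ∈ A, e i < 0 := by
    intro A hA
    refine lt_of_le_of_lt (Finset.sum_le_sum fun i _ => ?_) (hz2 A hA)
    refine sub_le_self _ (Finset.sum_nonneg fun B hB => ?_)
    split_ifs
    · exact hz1 B hB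
    · exact le_rfl
  let N : ℕ := Finset.univ.sup fun i => (-e i).toNat
  have hN : ∀ i, 0 ≤ (N : ℤ) + e i := fun i => by
    have := Finset.le_sup (f := fun i => (-e i).toNat) (Finset.mem_univ i)
    have h2 : (-e i).toNat ≤ N := this
    omega
  have hle : ∀ A ∈ E, ∑ i ∈ A, e i ≤ 0 := fun A hA => by
    by_cases h : A ∈ M
    · exact (he1 A h).le
    · exact (he2 A (Finset.mem_sdiff.2 ⟨hA, h⟩)).le
  refine ⟨N, fun i => (N + e i).toNat, fun A => (-∑ i ∈ A, e i).toNat, fun A hA => ?_, fun A hA => ?_⟩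
  · have h1 : ((∑ i ∈ A, ((N : ℤ) + e i).toNat : ℕ) : ℤ) = N * A.card + ∑ i ∈ A, e i := by
      push_cast
      rw [Finset.sum_congr rfl fun i _ => Int.toNat_of_nonneg (hN i), Finset.sum_add_distrib]
      simp [mul_comm]
    have h2 := hle A hA
    zify at h1 ⊢
    rw [h1, Int.toNat_of_nonneg (by omega)]
    ring
  · constructor
    · intro h
      by_contra hM
      have := he2 A (Finset.mem_sdiff.2 ⟨hA, hM⟩)
      have h' : (-∑ i ∈ A, e i).toNat = 0 := h
      omega
    · intro h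
      simp [he1 A h]

theorem result (K : Type*) [Field K] (n : ℕ) (E : Finset (Finset (Fin n))) (hE : IsClutter E)
    (d : ℕ) (hd : pmd E + 1 ≤ d) : (LSS K d E).IsPrime := by
  obtain ⟨P, hP1, hP2⟩ : ∃ P, IsPMD E (pmd E) P := Nat.sInf_mem (s := {p | ∃ P, IsPMD E p P}) (exists_pmd hE)
  have key : ∀ m ≤ pmd E, ∀ d, m + 1 ≤ d →
      ∀ E' ⊆ E \ (Finset.range (pmd E - m)).biUnion P, (L K d E').IsPrime := by
    intro m
    induction m with
    | zero =>
      intro _ d _ E' h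
      rw [Nat.sub_zero, ← hP1, Finset.sdiff_self, Finset.subset_empty] at h
      subst h
      simpa [L] using Ideal.isPrime_bot
    | succ m ih =>
      intro hm d hd
      obtain ⟨d, rfl⟩ : ∃ d', d = d' + 1 := ⟨d - 1, by omega⟩
      have hM := hP2 (pmd E - (m + 1)) (by omega)
      have hC : Clutter (E \ (Finset.range (pmd E - (m + 1))).biUnion P) :=
        ⟨fun A hA => hE.1 A (Finset.mem_sdiff.1 hA).1,
          fun A hA B hB => hE.2 A (Finset.mem_sdiff.1 hA).1 B (Finset.mem_sdiff.1 hB).1⟩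
      obtain ⟨N, u, g, h1, h2⟩ := weights hC.1 hM
      refine step (by omega) hC hM.2.1 N u g h1 h2 fun E' h => ih (by omega) d (by omega) E' ?_
      rw [show pmd E - m = (pmd E - (m + 1)) + 1 by omega, Finset.range_add_one, Finset.biUnion_insert]
      intro A hA
      have := h hA
      simp only [Finset.mem_sdiff, Finset.mem_union] at this ⊢
      tauto
  exact key (pmd E) le_rfl d hd E (by simp)

end Pool.Agent.Results.MP_c79496_ag.Prime
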